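import Mathlib
import Pool.Agent.V11269.Hybrid

/-!
For every prime `p` and every `α ∈ Bad_p` the hybrid sequence `({nα}, φ_p(n))` is low discrepancy.
-/

namespace Pool.Agent.Results.MP_22b8ff_nt.LowDiscrepancy

open Finset Pool.Agent.V11269.Hybrid

/-- The distance to the nearest integer. -/
noncomputable def distInt (x : ℝ) : ℝ := |x - round x|

/-- `Bad_p = {α : inf_{q ≥ 1} q |q|_p ‖qα‖ > 0}`. -/
def BadP (p : ℕ) : Set ℝ :=
  {α | 0 < ⨅ q : ℕ+, ((q : ℕ) : ℝ) * ((padicNorm p ((q : ℕ) : ℚ) : ℚ) : ℝ) *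
    distInt (((q : ℕ) : ℝ) * α)}

/-- The hybrid sequence `H_n = ({nα}, φ_p(n))`, where
`φ_p(n) = vdc p n = ∑_i a_i p^(-i-1)` with `a_i = (n / p^i) % p` the base-`p` digits of `n`. -/
noncomputable def H (p : ℕ) (α : ℝ) (n : ℕ) : ℝ × ℝ := (Int.fract (n * α), vdc p n)

/-- `#{0 ≤ n < N : H_n ∈ [0,a) × [0,b)}`. -/
noncomputable def count (p : ℕ) (α a b : ℝ) (N : ℕ) : ℕ :=
  Set.ncard {n : ℕ | n < N ∧ H p α n ∈ Set.Ico 0 a ×ˢ Set.Ico 0 b}

/-- The star discrepancy `D_N`. -/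
noncomputable def D (p : ℕ) (α : ℝ) (N : ℕ) : ℝ :=
  sSup {x | ∃ a b : ℝ, 0 ≤ a ∧ a ≤ 1 ∧ 0 ≤ b ∧ b ≤ 1 ∧ x = |(count p α a b N : ℝ) / N - a * b|}

lemma count_eq {p : ℕ} (hp : 2 ≤ p) (α a b : ℝ) (N : ℕ) : count p α a b N = T p α 0 a b N := by
  unfold count T
  rw [← Set.ncard_coe_finset]
  congr 1
  ext n
  simp only [H, Set.mem_ofPred_eq, Set.mem_prod, Set.mem_Ico, coe_filter, mem_range, add_zero]
  constructor
  · rintro ⟨h1, ⟨_, h2⟩, _, h3⟩; exact ⟨h1, h2, h3⟩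
  · rintro ⟨h1, h2, h3⟩; exact ⟨h1, ⟨Int.fract_nonneg _, h2⟩, (vdc_bounds hp n).1, h3⟩

lemma distInt_nonneg (x : ℝ) : 0 ≤ distInt x := abs_nonneg _

lemma bad_unif {p : ℕ} [hp : Fact p.Prime] {α : ℝ} (h : α ∈ BadP p) : ∃ c : ℝ, 0 < c ∧
    ∀ v q : ℕ, 0 < q → c ≤ q * |q * (p ^ v * α) - round (q * (p ^ v * α))| := by
  refine ⟨_, h, fun v q hq => ?_⟩
  have hppos : 0 < p := hp.out.pos
  have hQ : 0 < q * p ^ v := by positivity
  have h1 := ciInf_le (f := fun q : ℕ+ => ((q : ℕ) : ℝ) * ((padicNorm p ((q : ℕ) : ℚ) : ℚ) : ℝ) *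
    distInt (((q : ℕ) : ℝ) * α)) ⟨0, by
      rintro x ⟨q, rfl⟩
      have := padicNorm.nonneg (p := p) ((q : ℕ) : ℚ)
      have h2 : (0 : ℝ) ≤ ((padicNorm p ((q : ℕ) : ℚ) : ℚ) : ℝ) := by exact_mod_cast this
      have h3 := distInt_nonneg (((q : ℕ) : ℝ) * α)
      positivity⟩ ⟨q * p ^ v, hQ⟩
  refine h1.trans ?_
  simp only [PNat.mk_coe]
  have h2 : ((padicNorm p ((q * p ^ v : ℕ) : ℚ) : ℚ) : ℝ) ≤ 1 / (p : ℝ) ^ v := by
    have epow : ∀ v : ℕ, padicNorm p ((p : ℚ) ^ v) = 1 / (p : ℚ) ^ v := by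
      intro v
      induction v with
      | zero => simp
      | succ v ih =>
        rw [pow_succ, padicNorm.mul, ih, padicNorm.padicNorm_p_of_prime]
        field_simp
    have e1 : padicNorm p ((q * p ^ v : ℕ) : ℚ) = padicNorm p (q : ℚ) * (1 / (p : ℚ) ^ v) := by
      push_cast
      rw [padicNorm.mul, epow]
    have e2 : padicNorm p ((q * p ^ v : ℕ) : ℚ) ≤ 1 / (p : ℚ) ^ v := by
      rw [e1]
      have := padicNorm.of_nat (p := p) q
      have h3 : (0 : ℚ) ≤ 1 / (p : ℚ) ^ v := by positivity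
      nlinarith
    have e3 : ((padicNorm p ((q * p ^ v : ℕ) : ℚ) : ℚ) : ℝ) ≤ ((1 / (p : ℚ) ^ v : ℚ) : ℝ) := by
      exact_mod_cast e2
    refine e3.trans (le_of_eq ?_)
    push_cast; rfl
  have h3 := distInt_nonneg (((q * p ^ v : ℕ) : ℝ) * α)
  have h4 : ((q * p ^ v : ℕ) : ℝ) * α = q * (p ^ v * α) := by push_cast; ring
  rw [h4] at h3 ⊢
  have h5 : ((q * p ^ v : ℕ) : ℝ) * ((padicNorm p ((q * p ^ v : ℕ) : ℚ) : ℚ) : ℝ) ≤ q := by
    calc ((q * p ^ v : ℕ) : ℝ) * ((padicNorm p ((q * p ^ v : ℕ) : ℚ) : ℚ) : ℝ)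
        ≤ ((q * p ^ v : ℕ) : ℝ) * (1 / (p : ℝ) ^ v) := by gcongr
      _ = q := by push_cast; field_simp
  exact mul_le_mul_of_nonneg_right h5 h3

/-- For a prime `p` and `α ∈ Bad_p`, the hybrid sequence is low discrepancy. -/
theorem result (p : ℕ) (hp : p.Prime) (α : ℝ) (hα : α ∈ BadP p) :
    ∃ C : ℝ, ∀ N : ℕ, 2 ≤ N → D p α N ≤ C * (Real.log N) ^ 2 / N := by
  have : Fact p.Prime := ⟨hp⟩
  obtain ⟨c, hc, hbad⟩ := bad_unif hα
  have hp2 := hp.two_le
  set K := 3 + 3 * p * (6 / c + 3 / c ^ 2 + 2) with hK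
  refine ⟨K, fun N hN => ?_⟩
  have hNr : (0 : ℝ) < N := by positivity
  have hN2 : (2 : ℝ) ≤ N := by exact_mod_cast hN
  have hlog2 : (0.69 : ℝ) < Real.log 2 := by have := Real.log_two_gt_d9; linarith
  have hlogN : Real.log 2 ≤ Real.log N := Real.log_le_log (by norm_num) hN2
  set l := Real.log N with hl
  have hl1 : 1 ≤ 2 * l := by linarith
  have hl2 : 1 ≤ 3 * l ^ 2 := by nlinarith
  -- the pointwise bound
  have hpt : ∀ a b : ℝ, 0 ≤ a → a ≤ 1 → 0 ≤ b → b ≤ 1 →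
      |(count p α a b N : ℝ) - N * a * b| ≤ K * l ^ 2 := by
    intro a b ha0 ha1 hb0 hb1
    rw [count_eq hp2]
    have hp0 : (0 : ℝ) < p := by positivity
    rcases hb1.lt_or_eq with hb1' | hb1'
    · set k := Nat.clog 2 N with hk
      have hk1 : N ≤ 2 ^ k := Nat.le_pow_clog (by norm_num) N
      have hk2 : 2 ^ (k - 1) < N := Nat.pow_pred_clog_lt_self (by norm_num) (by omega)
      have hkpos : 0 < k := Nat.clog_pos (by norm_num) hN
      have hk3 : (k : ℝ) ≤ 3 * l := by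
        have h1 : ((2 : ℝ)) ^ (k - 1) ≤ N := by exact_mod_cast hk2.le
        have h2 := Real.log_le_log (by positivity) h1
        rw [Real.log_pow, Nat.cast_sub hkpos] at h2
        push_cast at h2
        have h3 : 0.69 * ((k : ℝ) - 1) ≤ l := by
          have : (0 : ℝ) ≤ (k : ℝ) - 1 := by
            have : (1 : ℝ) ≤ k := by exact_mod_cast hkpos
            linarith
          nlinarith
        linarith
      have hm := main_bound hp2 hc N (by omega) a ha0 ha1 k α 0 b N hb0 hb1' hbad hk1 le_rfl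
      refine hm.trans ?_
      rw [← hl]
      have hin : 3 / c + 3 / c ^ 2 * l + 1 ≤ (6 / c + 3 / c ^ 2 + 2) * l := by
        have h1 : 3 / c ≤ 6 / c * l := by
          have : 3 / c * 1 ≤ 3 / c * (2 * l) := by gcongr
          calc 3 / c = 3 / c * 1 := by ring
            _ ≤ 3 / c * (2 * l) := this
            _ = 6 / c * l := by ring
        linarith
      have hlpos : 0 < l := by linarith
      calc 1 + (k : ℝ) * (p * (3 / c + 3 / c ^ 2 * l + 1))
          ≤ 3 * l ^ 2 + (3 * l) * (p * ((6 / c + 3 / c ^ 2 + 2) * l)) := by gcongr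
        _ = K * l ^ 2 := by rw [hK]; ring
    · -- `b = 1`
      subst hb1'
      have e1 : T p α 0 a 1 N = A α 0 a N := by
        unfold T A
        congr 1
        apply filter_congr
        intro n _
        exact ⟨fun h => h.1, fun h => ⟨h, (vdc_bounds hp2 n).2⟩⟩
      rw [e1, mul_one]
      have hb : ∀ q : ℕ, 0 < q → c ≤ q * |q * α - round (q * α)| := by
        intro q hq
        have := hbad 0 q hq
        simpa using this
      refine (kron hc hb a ha0 ha1 N (by omega) 0).trans ?_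
      have h1 : 3 / c ≤ (12 / c) * l ^ 2 := by
        have : 3 / c * 1 ≤ 3 / c * (3 * l ^ 2) := by gcongr
        have h2 : 0 ≤ 3 / c * l ^ 2 := by positivity
        calc 3 / c = 3 / c * 1 := by ring
          _ ≤ 3 / c * (3 * l ^ 2) := this
          _ ≤ (12 / c) * l ^ 2 := by
            have : (12 / c) * l ^ 2 = 3 / c * (3 * l ^ 2) + 3 / c * l ^ 2 := by ring
            linarith
      have h2 : 3 / c ^ 2 * l ≤ (6 / c ^ 2) * l ^ 2 := by
        have h3 : l ≤ 2 * l ^ 2 := by nlinarith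
        calc 3 / c ^ 2 * l ≤ 3 / c ^ 2 * (2 * l ^ 2) := by gcongr
          _ = (6 / c ^ 2) * l ^ 2 := by ring
      have h3 : 12 / c + 6 / c ^ 2 ≤ K := by
        rw [hK]
        have hp2r : (2 : ℝ) ≤ p := by exact_mod_cast hp2
        have h4 : 3 * 2 * (6 / c + 3 / c ^ 2 + 2) ≤ 3 * p * (6 / c + 3 / c ^ 2 + 2) := by gcongr
        have h5 : 0 < 1 / c := by positivity
        have h6 : 0 < 1 / c ^ 2 := by positivity
        have h7 : 12 / c = 12 * (1 / c) := by ring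
        have h8 : 6 / c ^ 2 = 6 * (1 / c ^ 2) := by ring
        have h9 : 6 / c = 6 * (1 / c) := by ring
        have h10 : 3 / c ^ 2 = 3 * (1 / c ^ 2) := by ring
        rw [h9, h10] at h4
        rw [h7, h8, h9, h10]
        linarith
      have h4 : (12 / c + 6 / c ^ 2) * l ^ 2 ≤ K * l ^ 2 := by gcongr
      linarith
  -- the supremum
  unfold D
  apply csSup_le
  · exact ⟨_, 0, 0, le_rfl, zero_le_one, le_rfl, zero_le_one, rfl⟩
  · rintro x ⟨a, b, ha0, ha1, hb0, hb1, rfl⟩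
    have h1 := hpt a b ha0 ha1 hb0 hb1
    have h2 : (count p α a b N : ℝ) / N - a * b = ((count p α a b N : ℝ) - N * a * b) / N := by
      field_simp
    rw [h2, abs_div, abs_of_pos hNr]
    gcongr

end Pool.Agent.Results.MP_22b8ff_nt.LowDiscrepancy
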